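import Mathlib
import Pool.Agent.H148.PfF

set_option autoImplicit false

namespace Pool.Agent.Results.MP_c5a58e_co.FourPfaffians

open Finset Polynomial

/-- The Pfaffian of a `2n × 2n` matrix `A` (zero-based indices) over a commutative `ℚ`-algebra:
`(1 / (2^n n!)) ∑_σ sgn(σ) ∏_{i<n} A_{σ(2i), σ(2i+1)}`. -/
noncomputable def Pf {R : Type*} [CommRing R] [Algebra ℚ R] {n : ℕ}
    (A : Matrix (Fin (2 * n)) (Fin (2 * n)) R) : R :=
  ((2 ^ n * (n.factorial : ℚ))⁻¹ : ℚ) •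
    ∑ σ : Equiv.Perm (Fin (2 * n)), ((Equiv.Perm.sign σ : ℤ) : R) *
      ∏ i : Fin n, A (σ ⟨2 * i.val, by omega⟩) (σ ⟨2 * i.val + 1, by omega⟩)

/-- Motzkin numbers. -/
def motzkin (n : ℕ) : ℚ := ∑ k ∈ range (n + 1), (n.choose (2 * k) : ℚ) * (catalan k : ℚ)

/-- Central Delannoy numbers. -/
def delannoy (n : ℕ) : ℚ := ∑ k ∈ range (n + 1), (n.choose k : ℚ) * ((n + k).choose k : ℚ)

/-- Schröder numbers. -/
def schroder (n : ℕ) : ℚ := ∑ k ∈ range (n + 1), ((n + k).choose (2 * k) : ℚ) * (catalan k : ℚ)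

/-- Narayana polynomials in the variable `X`. -/
noncomputable def narayana (n : ℕ) : ℚ[X] :=
  if n = 0 then 1 else ∑ k ∈ range (n + 1),
    C ((1 / (n : ℚ)) * (n.choose k : ℚ) * (if k = 0 then 0 else (n.choose (k - 1) : ℚ))) * X ^ k

/-- The `2n × 2n` matrix `((j-i) x_{i+j-3})_{1 ≤ i,j ≤ 2n}`; with zero-based indices the entry is
`(j-i) x_{i+j-1}` (the `(0,0)` entry is `0`). -/
def matrixThree {R : Type*} [CommRing R] (n : ℕ) (x : ℕ → R) :
    Matrix (Fin (2 * n)) (Fin (2 * n)) R :=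
  fun i j => (((j : ℕ) : R) - ((i : ℕ) : R)) * x ((i : ℕ) + (j : ℕ) - 1)

/-- The `2n × 2n` matrix `((j-i) x_{i+j-2})_{1 ≤ i,j ≤ 2n}`; with zero-based indices the entry is
`(j-i) x_{i+j}`. -/
def matrixTwo {R : Type*} [CommRing R] (n : ℕ) (x : ℕ → R) :
    Matrix (Fin (2 * n)) (Fin (2 * n)) R :=
  fun i j => (((j : ℕ) : R) - ((i : ℕ) : R)) * x ((i : ℕ) + (j : ℕ))

open Pool.Agent.H148.PfA

theorem Pf_of {R : Type*} [CommRing R] [Algebra ℚ R] {n : ℕ}
    {A : Matrix (Fin (2 * n)) (Fin (2 * n)) R} {v : R}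
    (h : pfSum A = v * (2 ^ n * (n.factorial : R))) : Pf A = v := by
  have h1 : Pf A = ((2 ^ n * (n.factorial : ℚ))⁻¹ : ℚ) • pfSum A := rfl
  have h2 : (2 ^ n * (n.factorial : R)) = algebraMap ℚ R (2 ^ n * (n.factorial : ℚ)) := by
    rw [map_mul, map_pow, map_natCast, map_ofNat]
  have h3 : (2 ^ n * (n.factorial : ℚ)) ≠ 0 := by positivity
  rw [h1, h, h2, mul_comm v, ← Algebra.smul_def, smul_smul, inv_mul_cancel₀ h3, one_smul]

theorem motzkin_eq (r : ℕ) : motzkin r = cm r 0 := by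
  rw [motzkin, cm]
  apply Finset.sum_congr rfl
  intro k _
  rw [bal_catalan, zero_add]

theorem delannoy_eq (r : ℕ) : delannoy r = gg (2 : ℚ) r 0 := by
  rw [delannoy, gg]
  have := congrArg (fun z : ℕ => (z : ℚ)) (delannoy_sum r)
  push_cast at this
  rw [this]
  simp

theorem schroder_eq (r : ℕ) : schroder (r + 1) = 2 * (gg (2 : ℚ) r 0 - 2 * gg 2 r 2) := by
  have h := congrArg (fun z : ℕ => (z : ℚ)) (schroder_sum (r + 1) (by omega))
  push_cast at h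
  rw [nar_sum] at h
  have h0 : ((r : ℚ) + 1) ≠ 0 := by positivity
  have h1 := mul_left_cancel₀ h0 h
  rw [schroder]
  rw [← h1]

theorem narayana_eq (r : ℕ) : narayana (r + 1) = X * (gg (X : ℚ[X]) r 0 - X * gg X r 2) := by
  rw [narayana, if_neg (by omega), Finset.sum_range_succ']
  have h := nar_sum (X : ℚ[X]) r
  have h0 : (C (1 / ((r : ℚ) + 1)) : ℚ[X]) * ((r : ℚ[X]) + 1) = 1 := by
    have : ((r : ℚ[X]) + 1) = C ((r : ℚ) + 1) := by simp
    rw [this, ← C_mul, one_div, inv_mul_cancel₀ (by positivity), C_1]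
  have h1 : (X : ℚ[X]) * (gg X r 0 - X * gg X r 2) = C (1 / ((r : ℚ) + 1)) *
      ∑ i ∈ range (r + 1), ((r + 1).choose i : ℚ[X]) * ((r + 1).choose (i + 1) : ℚ[X]) *
        X ^ (i + 1) := by
    rw [h, ← mul_assoc, h0, one_mul]
  rw [h1, Finset.mul_sum]
  simp only [if_true, mul_zero, C_0, zero_mul, add_zero]
  apply Finset.sum_congr rfl
  intro i _
  rw [if_neg (by omega), Nat.add_sub_cancel]
  simp only [C_mul, Nat.cast_add, Nat.cast_one, map_natCast]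
  ring

/-- For every `n ≥ 1` all four Pfaffian identities hold. -/
theorem result (n : ℕ) (hn : 1 ≤ n) :
    Pf (matrixThree n motzkin) = ∏ k ∈ range n, (4 * (k : ℚ) + 1) ∧
    Pf (matrixThree n delannoy) =
      2 ^ (n ^ 2 - 1) * (2 * (n : ℚ) - 1) * ∏ k ∈ Ico 1 n, (4 * (k : ℚ) - 1) ∧
    Pf (matrixTwo n schroder) = 2 ^ (n ^ 2) * ∏ k ∈ range n, (4 * (k : ℚ) + 1) ∧
    Pf (matrixTwo n narayana) = X ^ (n ^ 2) * ∏ k ∈ range n, (4 * (k : ℚ[X]) + 1) := by
  refine ⟨?_, ?_, ?_, ?_⟩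
  · have h : matrixThree n motzkin = mat n (fun r => cm r 0) := by
      rw [show motzkin = fun r => cm r 0 from funext motzkin_eq]; rfl
    rw [h]
    apply Pf_of
    rw [semi_cm.pf, one_pow, one_mul]
  · obtain ⟨m, rfl⟩ : ∃ m, n = m + 1 := ⟨n - 1, by omega⟩
    have h : matrixThree (m + 1) delannoy = mat (m + 1) (fun r => gg (2 : ℚ) r 0) := by
      rw [show delannoy = fun r => gg (2 : ℚ) r 0 from funext delannoy_eq]; rfl
    rw [h]
    apply Pf_of
    rw [(arc_gg (2 : ℚ)).pf]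
    congr 1
    rw [Finset.prod_Ico_eq_prod_range, Nat.add_sub_cancel]
    have h1 : ∀ k ∈ range m, (4 * ((1 + k : ℕ) : ℚ) - 1) = 4 * (k : ℚ) + 3 := by
      intro k _; push_cast; ring
    rw [Finset.prod_congr rfl h1, show (m + 1) ^ 2 - 1 = (m + 1) * m + m by
      rw [Nat.sub_eq_iff_eq_add (Nat.one_le_iff_ne_zero.2 (by positivity))]; ring, pow_add]
    push_cast
    ring
  · have h : matrixTwo n schroder = fun i j => (2 : ℚ) * mat n
        (fun r => gg (2 : ℚ) r 0 - 2 * gg 2 r 2) i j :=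
      matS_eq n schroder _ 2 schroder_eq
    rw [h]
    apply Pf_of
    rw [pfSum_smul, (semi_gg (2 : ℚ)).pf]
    obtain ⟨m, rfl⟩ : ∃ m, n = m + 1 := ⟨n - 1, by omega⟩
    rw [Nat.add_sub_cancel, show (m + 1) ^ 2 = (m + 1) + (m + 1) * m by ring, pow_add]; ring
  · have h : matrixTwo n narayana = fun i j => (X : ℚ[X]) * mat n
        (fun r => gg (X : ℚ[X]) r 0 - X * gg X r 2) i j :=
      matS_eq n narayana _ X narayana_eq
    rw [h]
    apply Pf_of
    rw [pfSum_smul, (semi_gg (X : ℚ[X])).pf]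
    obtain ⟨m, rfl⟩ : ∃ m, n = m + 1 := ⟨n - 1, by omega⟩
    rw [Nat.add_sub_cancel, show (m + 1) ^ 2 = (m + 1) + (m + 1) * m by ring, pow_add]; ring

end Pool.Agent.Results.MP_c5a58e_co.FourPfaffians
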